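import Pool.Agent.H25.TRI.Targets

/-! REG part C, row UHE: the heat equation for the Gaussian means. -/

set_option autoImplicit false

open MeasureTheory Metric Set Filter Topology Pool.Agent.H87.SN Pool.Agent.H25.TRI
open scoped ContDiff RealInnerProductSpace ENNReal

namespace Pool.Agent.H35.TRI

theorem sum_bv {n : ℕ} (z : E n) : z = ∑ i, z i • (bv i : E n) := by
  ext j
  simp [bv, Pi.single_apply]

theorem int_bdd {n : ℕ} {g φ : E n → ℝ} (hg : Integrable g) (hgc : Continuous g)
    (hφ : Continuous φ) {C : ℝ} (hC : ∀ z, |φ z| ≤ C) : Integrable (fun z => g z * φ z) := by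
  refine (hg.abs.mul_const C).mono' (hgc.mul hφ).aestronglyMeasurable
    (Eventually.of_forall fun z => ?_)
  rw [Real.norm_eq_abs, abs_mul]
  exact mul_le_mul_of_nonneg_left (hC z) (abs_nonneg _)

/-- the derivative of the path `t ↦ f (x - √t z)` -/
theorem path_deriv {n : ℕ} {f : E n → ℝ} (hf : ContDiff ℝ ∞ f) (x z : E n) {t : ℝ}
    (ht : 0 < t) : HasDerivAt (fun t : ℝ => f (x - Real.sqrt t • z))
      (fderiv ℝ f (x - Real.sqrt t • z) (-((1 / (2 * Real.sqrt t)) • z))) t := by
  have h1 : HasDerivAt (fun t : ℝ => Real.sqrt t) (1 / (2 * Real.sqrt t)) t :=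
    Real.hasDerivAt_sqrt ht.ne'
  have h2 : HasDerivAt (fun t : ℝ => x - Real.sqrt t • z)
      (-((1 / (2 * Real.sqrt t)) • z)) t := (h1.smul_const z).const_sub x
  have h3 : HasFDerivAt f (fderiv ℝ f (x - Real.sqrt t • z)) (x - Real.sqrt t • z) :=
    (hf.differentiable (by simp)).differentiableAt.hasFDerivAt
  exact h3.comp_hasDerivAt t h2

theorem pf_UHE (hGAU : T_GAU) (hUPD : T_UPD) : T_UHE := by
  intro n f hf s hs x
  obtain ⟨hg0, -, hgint, hgs, hgpd⟩ := hGAU n
  have hgc : Continuous (gam : E n → ℝ) := hgs.continuous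
  have hgi : Integrable (gam : E n → ℝ) := by
    have h1 := hgint 0
    simpa using h1
  have hfd : Continuous (fderiv ℝ f) := hf.1.continuous_fderiv (by simp)
  obtain ⟨C, hC⟩ := (hf.2.fderiv (𝕜 := ℝ)).exists_bound_of_continuous hfd
  have hC0 : 0 ≤ C := (norm_nonneg _).trans (hC 0)
  obtain ⟨C₀, hC₀⟩ := hf.bdd
  have hcx : ∀ t : ℝ, Continuous fun z : E n => x - Real.sqrt t • z := fun t => by fun_prop
  have hq0 : 0 < Real.sqrt (s / 2) := Real.sqrt_pos.2 (by linarith)
  have hsq : 0 < Real.sqrt s := Real.sqrt_pos.2 hs
  -- differentiation under the integral sign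
  have hD := hasDerivAt_integral_of_dominated_loc_of_deriv_le (μ := (volume : Measure (E n)))
    (F := fun (t : ℝ) (z : E n) => gam z * f (x - Real.sqrt t • z))
    (F' := fun (t : ℝ) (z : E n) =>
      gam z * fderiv ℝ f (x - Real.sqrt t • z) (-((1 / (2 * Real.sqrt t)) • z)))
    (bound := fun z => C / (2 * Real.sqrt (s / 2)) * (‖z‖ ^ 1 * gam z)) (x₀ := s)
    (s := Ioi (s / 2)) (Ioi_mem_nhds (by linarith))
    (Eventually.of_forall fun t => (hgc.mul (hf.continuous.comp (hcx t))).aestronglyMeasurable)
    (int_bdd hgi hgc (hf.continuous.comp (hcx s)) fun z => hC₀ _)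
    (by
      refine (hgc.mul ?_).aestronglyMeasurable
      exact (hfd.comp (hcx s)).clm_apply (by fun_prop))
    (Eventually.of_forall fun z t ht => by
      have ht' : s / 2 < t := ht
      have ht0 : 0 < t := by linarith
      have h1 : Real.sqrt (s / 2) ≤ Real.sqrt t := Real.sqrt_le_sqrt ht'.le
      have h2 : ‖fderiv ℝ f (x - Real.sqrt t • z) (-((1 / (2 * Real.sqrt t)) • z))‖ ≤
          C * (1 / (2 * Real.sqrt (s / 2)) * ‖z‖) := by
        refine (ContinuousLinearMap.le_opNorm _ _).trans ?_
        refine mul_le_mul (hC _) ?_ (norm_nonneg _) hC0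
        rw [norm_neg, norm_smul, Real.norm_eq_abs, abs_of_nonneg (by positivity)]
        refine mul_le_mul_of_nonneg_right ?_ (norm_nonneg _)
        exact one_div_le_one_div_of_le (by positivity) (by linarith)
      rw [norm_mul, Real.norm_eq_abs, abs_of_pos (hg0 z)]
      refine (mul_le_mul_of_nonneg_left h2 (hg0 z).le).trans (le_of_eq ?_)
      ring)
    ((hgint 1).const_mul _)
    (Eventually.of_forall fun z t ht => by
      have ht' : s / 2 < t := ht
      exact (path_deriv hf.1 x z (by linarith)).const_mul (gam z))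
  have hval : ∫ z : E n, gam z * fderiv ℝ f (x - Real.sqrt s • z)
      (-((1 / (2 * Real.sqrt s)) • z)) = U (lap f) s x := by
    have hzi : ∀ i : Fin n, Integrable (fun z : E n => pd i gam z) := by
      intro i
      have h1 := (hgint 1)
      refine h1.mono' ?_ (Eventually.of_forall fun z => ?_)
      · have h2 : (fun z : E n => pd i gam z) = fun z : E n => -(z i) / 2 * gam z :=
          funext fun z => hgpd i z
        rw [h2]
        exact (Continuous.mul (by fun_prop) hgc).aestronglyMeasurable
      · rw [hgpd, Real.norm_eq_abs, abs_mul, abs_of_pos (hg0 z), pow_one]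
        refine mul_le_mul_of_nonneg_right ?_ (hg0 z).le
        rw [abs_div, abs_neg, abs_two]
        have h2 : |z i| ≤ ‖z‖ := PiLp.norm_apply_le z i
        have h3 := abs_nonneg (z i)
        linarith
    have hpc : ∀ i : Fin n, Continuous (fun z : E n => pd i gam z) := by
      intro i
      have h2 : (fun z : E n => pd i gam z) = fun z : E n => -(z i) / 2 * gam z :=
        funext fun z => hgpd i z
      rw [h2]
      exact Continuous.mul (by fun_prop) hgc
    -- the integrand
    have e1 : ∀ z : E n, gam z * fderiv ℝ f (x - Real.sqrt s • z)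
        (-((1 / (2 * Real.sqrt s)) • z)) =
        ∑ i, (1 / Real.sqrt s) * (pd i gam z * pd i f (x - Real.sqrt s • z)) := by
      intro z
      have h1 : fderiv ℝ f (x - Real.sqrt s • z) z =
          ∑ i, z i * pd i f (x - Real.sqrt s • z) := by
        conv_lhs => rw [sum_bv z]
        rw [map_sum]
        refine Finset.sum_congr rfl fun i _ => ?_
        rw [map_smul, smul_eq_mul, ← sum_bv z]
        rfl
      rw [map_neg, map_smul, smul_eq_mul, h1, Finset.mul_sum, ← Finset.sum_neg_distrib,
        Finset.mul_sum]
      refine Finset.sum_congr rfl fun i _ => ?_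
      rw [hgpd]
      field_simp
    -- one term
    have e2 : ∀ i : Fin n, ∫ z : E n, pd i gam z * pd i f (x - Real.sqrt s • z) =
        Real.sqrt s * ∫ z : E n, gam z * pd i (pd i f) (x - Real.sqrt s • z) := by
      intro i
      have hfi := hf.pd i
      have hfii := hfi.pd i
      obtain ⟨C₁, hC₁⟩ := hfi.bdd
      obtain ⟨C₂, hC₂⟩ := hfii.bdd
      have hdiff : Differentiable ℝ fun z : E n => pd i f (x - Real.sqrt s • z) :=
        (hfi.1.differentiable (by simp)).comp (by fun_prop)
      have hder : ∀ z : E n, fderiv ℝ (fun z : E n => pd i f (x - Real.sqrt s • z)) z (bv i) =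
          -Real.sqrt s * pd i (pd i f) (x - Real.sqrt s • z) := by
        intro z
        have h1 : HasFDerivAt (fun z : E n => x - Real.sqrt s • z)
            (-(Real.sqrt s • ContinuousLinearMap.id ℝ (E n))) z :=
          ((hasFDerivAt_id z).const_smul (Real.sqrt s)).const_sub x
        have h2 : HasFDerivAt (pd i f) (fderiv ℝ (pd i f) (x - Real.sqrt s • z))
            (x - Real.sqrt s • z) :=
          (hfi.1.differentiable (by simp)).differentiableAt.hasFDerivAt
        have h3 := (h2.comp z h1).fderiv
        have h4 : (pd i f ∘ fun z : E n => x - Real.sqrt s • z) =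
            fun z : E n => pd i f (x - Real.sqrt s • z) := rfl
        rw [h4] at h3
        rw [h3]
        simp [pd]
      have h5 := integral_mul_fderiv_eq_neg_fderiv_mul_of_integrable
        (μ := (volume : Measure (E n))) (f := fun z : E n => pd i f (x - Real.sqrt s • z))
        (g := gam) (v := bv i) ?_ ?_ ?_ (fun z _ => hdiff z)
        (fun z _ => (hgs.differentiable (by simp)) z)
      · simp only [hder] at h5
        have h6 : ∫ z : E n, pd i gam z * pd i f (x - Real.sqrt s • z) =
            ∫ z : E n, pd i f (x - Real.sqrt s • z) * fderiv ℝ gam z (bv i) := by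
          refine integral_congr_ae (Eventually.of_forall fun z => ?_)
          show pd i gam z * _ = _ * pd i gam z
          rw [mul_comm]
        rw [h6, h5, ← integral_const_mul, ← integral_neg]
        refine integral_congr_ae (Eventually.of_forall fun z => ?_)
        show -(-Real.sqrt s * pd i (pd i f) (x - Real.sqrt s • z) * gam z) = _
        ring
      · simp only [hder]
        have h6 := (int_bdd hgi hgc (hfii.continuous.comp (hcx s)) fun z => hC₂ _).const_mul
          (-Real.sqrt s)
        refine h6.congr (Eventually.of_forall fun z => ?_)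
        show -Real.sqrt s * (gam z * pd i (pd i f) (x - Real.sqrt s • z)) = _
        ring
      · have h6 := int_bdd (hzi i) (hpc i) (hfi.continuous.comp (hcx s)) fun z => hC₁ _
        refine h6.congr (Eventually.of_forall fun z => ?_)
        show pd i gam z * pd i f (x - Real.sqrt s • z) = _ * pd i gam z
        ring
      · have h6 := int_bdd hgi hgc (hfi.continuous.comp (hcx s)) fun z => hC₁ _
        refine h6.congr (Eventually.of_forall fun z => ?_)
        show gam z * pd i f (x - Real.sqrt s • z) = _
        ring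
    have e3 : ∀ i : Fin n, Integrable
        (fun z : E n => pd i gam z * pd i f (x - Real.sqrt s • z)) := by
      intro i
      obtain ⟨C₁, hC₁⟩ := (hf.pd i).bdd
      exact int_bdd (hzi i) (hpc i) ((hf.pd i).continuous.comp (hcx s)) fun z => hC₁ _
    have e4 : ∀ i : Fin n, Integrable
        (fun z : E n => gam z * pd i (pd i f) (x - Real.sqrt s • z)) := by
      intro i
      obtain ⟨C₁, hC₁⟩ := ((hf.pd i).pd i).bdd
      exact int_bdd hgi hgc (((hf.pd i).pd i).continuous.comp (hcx s)) fun z => hC₁ _
    simp only [e1]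
    rw [integral_finsetSum _ fun i _ => (e3 i).const_mul _]
    unfold U lap
    simp only [Finset.mul_sum]
    rw [integral_finsetSum _ fun i _ => e4 i]
    refine Finset.sum_congr rfl fun i _ => ?_
    rw [integral_const_mul, e2, ← mul_assoc, one_div, inv_mul_cancel₀ hsq.ne', one_mul]
  rw [← hval]
  exact hD.2

end Pool.Agent.H35.TRI
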